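import Pool.Agent.K.MP_158ebf_lc.C7
import Pool.Agent.K.MP_158ebf_lc.C3
import Pool.Agent.P.MP_158ebf_lc.Pn

namespace Pool.Agent.Results.MP_158ebf_lc.Autoreducible

open N68a2faeb Pool.Agent.P.MP_158ebf_lc

/-- The coherent (probabilistically Turing-autoreducible) languages `A` whose relativized
polynomial hierarchy does not contain exponential time (with polynomially long queries to `A`)
form a class of p-measure zero. -/
theorem result : PNull {A | Coherent A ∧ ¬EXPIn A ⊆ PHIn A} := AT.atr

/-- Corollary: the languages that are complete for `NP` under randomized Turing reductions form a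
class of p-measure zero, or `EXP` is contained in the polynomial hierarchy. -/
theorem np_complete :
    PNull {A | A ∈ NP ∧ NP ⊆ BPPIn A} ∨ ∀ L, InEXP L → L ∈ PHIn fun _ => false := by
  refine or_iff_not_imp_right.2 fun h => AT.pnull_subset result ?_
  rintro A ⟨hA, hC⟩
  refine ⟨AT.coherent_of_complete hA hC, fun hE => h fun L hL => ?_⟩
  exact AT.PH.trans (AT.PH.of_NP hA) (hE (AT.expIn_of_inEXP hL A))

/-- Side theorem: the class `NP` of the prelude written out. -/
theorem np_words : NP = {A | ∃ (k : ℕ) (R : List Bool × List Bool → Bool), IsPolyTime R ∧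
    ∀ x, A x = true ↔ ∃ w : List Bool, w.length ≤ x.length ^ k + k ∧ R (x, w) = true} :=
  Pn.np_eq

/-- Side theorem: whether a class has a p-null cover depends only on its members outside the
class of `result`. -/
theorem depends_only (X : Set (List Bool → Bool)) :
    PNull X ↔ PNull {A | A ∈ X ∧ ¬(Coherent A ∧ ¬EXPIn A ⊆ PHIn A)} :=
  Pn.diff_iff result X

/-- Side theorem (Lutz 1992, a control of the definition): the class `E`, polynomial time in the
input padded to length `2 ^ (n + 1)`, has no p-null cover. -/
theorem not_null : ¬PNull {A | ∃ R : List Bool × List Bool → Bool, IsPolyTime R ∧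
    ∀ x, A x = R (x, List.replicate (2 ^ (x.length + 1)) true)} :=
  Pn.not_null

end Pool.Agent.Results.MP_158ebf_lc.Autoreducible
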