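import Pool.Agent.K.MP_158ebf_lc.C0
import Pool.Agent.P.MP_158ebf_lc.Pn

namespace Pool.Agent.Results.MP_158ebf_lc.BoundedQueryComplete

open N68a2faeb Pool.Agent.P.MP_158ebf_lc

/-- The languages in NP that are complete for NP under adaptive reductions with a fixed
polynomial number of queries and advice bits form a class of p-measure zero. -/
theorem result : PNull {A | A ∈ NP ∧ ∃ κ : ℕ, ∀ B ∈ NP, Reduces κ B A} := by
  obtain ⟨d, c, h1, h2, h3, h4⟩ := pnull_test
  refine ⟨d, c, h1, h2, h3, fun k => ⟨(h4 k).1, (h4 k).2.1, ?_⟩⟩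
  rintro A ⟨hA, κ, h⟩
  exact (h4 k).2.2 A ⟨κ, h _ (testLang_mem_NP κ hA)⟩

/-- Side theorem: the question depends only on the `NP` languages outside the class of
`result`. -/
theorem depends_only : PNull NP ↔ PNull {A | A ∈ NP ∧ ¬∃ κ : ℕ, ∀ B ∈ NP, Reduces κ B A} :=
  (Pn.diff_iff result NP).trans (iff_of_eq (congrArg PNull (Set.ext fun _ =>
    ⟨fun h => ⟨h.1, fun h' => h.2 ⟨h.1, h'⟩⟩, fun h => ⟨h.1, fun h' => h.2 h'.2⟩⟩)))

open N487b59b3 in
/-- Side theorem (Cook, Levin): the class of `result` contains the language of satisfiable CNF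
formulas. -/
theorem contains_sat (A : List Bool → Bool) (hA : ∀ x, A x = true ↔
    ∃ φ : List (List (ℕ × Bool)), bitEncode φ = x ∧
      ∃ v : ℕ → Bool, ∀ c ∈ φ, ∃ l ∈ c, v l.1 = l.2) :
    A ∈ NP ∧ ∃ κ : ℕ, ∀ B ∈ NP, Reduces κ B A :=
  ⟨Pn.sat_NP hA, 0, fun B hB => Pn.reduces_zero (Pn.sat_hard hA B hB)⟩

/-- Side theorem (Lutz 1992, a control of the definition): the class `E`, polynomial time in the
input padded to length `2 ^ (n + 1)`, has no p-null cover. -/
theorem not_null : ¬PNull {A | ∃ R : List Bool × List Bool → Bool, IsPolyTime R ∧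
    ∀ x, A x = R (x, List.replicate (2 ^ (x.length + 1)) true)} :=
  Pn.not_null

end Pool.Agent.Results.MP_158ebf_lc.BoundedQueryComplete
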