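import Pool.Agent.K.MP_158ebf_lc.C2
import Pool.Agent.P.MP_158ebf_lc.Pn

namespace Pool.Agent.Results.MP_158ebf_lc.OptimalProofs

open N68a2faeb Pool.Agent.P.MP_158ebf_lc

/-- The languages `A` such that all languages disjunctively reducible to `A`, or all languages
disjunctively reducible to the complement of `A`, many-one reduce to one language with an optimal
proof system (translations in time `2^(O(n))`) form a class of p-measure zero. -/
theorem result : PNull {A | ∃ L f, EOptimal f L ∧
    ((∀ B, Dtt B A → ManyOne B L) ∨ ∀ B, Dtt B (fun x => !A x) → ManyOne B L)} :=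
  POpt.pnull_opt

/-- Corollary: if a language that is many-one hard for `NP` or for `coNP` has a p-optimal proof
system, then `NP` has p-measure zero. -/
theorem np_null {L : List Bool → Bool} {f : List Bool → List Bool} (hf : ProofSystem f L)
    (ho : ∀ g, ProofSystem g L → ∃ h : List Bool → List Bool, IsPolyTime h ∧ ∀ w, f (h w) = g w)
    (hL : (∀ B ∈ NP, ManyOne B L) ∨ ∀ B ∈ coNP, ManyOne B L) : PNull NP :=
  POpt.pnull_mono result fun _ hA => ⟨L, f,
    ⟨hf, fun g hg => (ho g hg).imp fun _ h => ⟨POpt.isExpTime_of_poly h.1, h.2⟩⟩,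
    hL.imp (fun h B hB => h B (POpt.dtt_NP hA hB)) fun h B hB => h B (POpt.dtt_coNP hA hB)⟩

open N487b59b3 in
/-- Side theorem: the corollary with every class written out. If `NP` has no p-null cover, then
neither the satisfiable CNF formulas nor the DNF tautologies have a p-optimal proof system, or
even one that is optimal for translations in time `2^(O(n))`, although both have proof systems.
A formula is a list of lists of literals; the literal `l` holds when variable `l.1` has the value
`l.2`; `n` is the length function. -/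
theorem sat_taut (n : List Bool → ℕ)
    (hn : ∀ x, x.map (fun _ => true) = List.replicate (n x) true)
    (h : ¬PNull {A | ∃ (k : ℕ) (R : List Bool × List Bool → Bool), IsPolyTime R ∧
      ∀ x, A x = true ↔ ∃ w, n w ≤ n x ^ k + k ∧ R (x, w) = true})
    (L : List Bool → Bool)
    (hL : (∀ x, L x = true ↔ ∃ φ : List (List (ℕ × Bool)), bitEncode φ = x ∧
        ∃ v : ℕ → Bool, ∀ c ∈ φ, ∃ l ∈ c, v l.1 = l.2) ∨
      ∀ x, L x = true ↔ ∃ φ : List (List (ℕ × Bool)), bitEncode φ = x ∧
        ∀ v : ℕ → Bool, ∃ c ∈ φ, ∀ l ∈ c, v l.1 = l.2) :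
    (∃ f, ProofSystem f L) ∧ (¬∃ f, EOptimal f L) ∧ ¬∃ f, ProofSystem f L ∧
      ∀ g, ProofSystem g L → ∃ t : List Bool → List Bool, IsPolyTime t ∧ ∀ w, f (t w) = g w := by
  obtain rfl := Pn.eq_length hn
  have e : ¬∃ f, EOptimal f L := fun ⟨f, hf⟩ => h (Pn.mono result fun A hA =>
    ⟨L, f, hf, hL.imp (fun h B hB => Pn.sat_hard h B (POpt.dtt_NP ((Pn.np_iff A).2 hA) hB))
      fun h B hB => Pn.taut_hard h B (POpt.dtt_coNP ((Pn.np_iff A).2 hA) hB)⟩)
  exact ⟨hL.elim Pn.sat_system Pn.taut_system, e, fun ⟨f, hf, ho⟩ =>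
    e ⟨f, hf, fun g hg => (ho g hg).imp fun _ h => ⟨Pn.expTime h.1, h.2⟩⟩⟩

/-- Side theorem: whether a class has a p-null cover depends only on its members outside the
class of `result`. -/
theorem depends_only (X : Set (List Bool → Bool)) : PNull X ↔ PNull {A | A ∈ X ∧ ¬∃ L f,
    EOptimal f L ∧
      ((∀ B, Dtt B A → ManyOne B L) ∨ ∀ B, Dtt B (fun x => !A x) → ManyOne B L)} :=
  Pn.diff_iff result X

/-- Side theorem: the class of `result` contains `P`. -/
theorem contains_P (A : List Bool → Bool) (hA : IsPolyTime A) : ∃ L f, EOptimal f L ∧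
    ((∀ B, Dtt B A → ManyOne B L) ∨ ∀ B, Dtt B (fun x => !A x) → ManyOne B L) :=
  (Pn.opt_P hA).imp fun _ h => h.imp fun _ h => ⟨h.1, Or.inl h.2⟩

/-- Side theorem (Lutz 1992, a control of the definition): the class `E`, polynomial time in the
input padded to length `2 ^ (n + 1)`, has no p-null cover; `n` is the length function. -/
theorem not_null (n : List Bool → ℕ)
    (hn : ∀ x, x.map (fun _ => true) = List.replicate (n x) true) :
    ¬PNull {A | ∃ R : List Bool × List Bool → Bool, IsPolyTime R ∧
      ∀ x, A x = R (x, List.replicate (2 ^ (n x + 1)) true)} := by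
  obtain rfl := Pn.eq_length hn
  exact Pn.not_null

end Pool.Agent.Results.MP_158ebf_lc.OptimalProofs
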