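import Pool.Agent.K.MP_158ebf_lc.C8
import Pool.Agent.P.MP_158ebf_lc.Pn

namespace Pool.Agent.Results.MP_158ebf_lc.SmallSpan

open N68a2faeb Pool.Agent.P.MP_158ebf_lc

/-- Adaptive Small Span Theorem: the languages in `EXP` whose upper span under reductions with
`n^α` adaptive queries, for some `α < 1`, is not p2-null form a class of strong p-dimension
zero. -/
theorem result :
    StrongDimZero {R | InEXP R ∧ ∃ α : ℝ, α < 1 ∧ ¬P2Null {B | RedT α R B}} :=
  SP.small_span

/-- Corollary: the Small Span Theorem for adaptive reductions with `n^(o(1))` queries. -/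
theorem small_span (A : List Bool → Bool) :
    PNull {L | InEXP L ∧ ∀ α > 0, RedT α L A} ∨ P2Null {B | ∀ α > 0, RedT α A B} := by
  refine or_iff_not_imp_right.2 fun h => SP.pnull_of_strong (SP.strong_mono result ?_)
  exact fun L hL => ⟨hL.1, 3 / 4, by norm_num, fun h' => h (SP.p2null_mono h' fun B hB =>
    SP.redT_comp (hL.2 _ (by norm_num)) hB)⟩

/-- Corollary: unless `NP` has p-measure zero, the sets that are hard for `NP` under reductions
with `n^α` adaptive queries, `α < 1`, have p2-measure zero. -/
theorem np_hard (h : ¬PNull NP) {α : ℝ} (hα : α < 1) : P2Null {B | ∀ L ∈ NP, RedT α L B} := by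
  by_contra h'
  exact h (SP.pnull_of_strong (SP.strong_mono result fun L hL =>
    ⟨LI.inEXP_of_NP hL, α, hα, fun h'' => h' (SP.p2null_mono h'' fun B hB => hB L hL)⟩))

/-- Side theorem: the class `NP` of the prelude written out. -/
theorem np_words : NP = {A | ∃ (k : ℕ) (R : List Bool × List Bool → Bool), IsPolyTime R ∧
    ∀ x, A x = true ↔ ∃ w : List Bool, w.length ≤ x.length ^ k + k ∧ R (x, w) = true} :=
  Pn.np_eq

/-- Side theorem: whether a class has a p-null cover depends only on its members outside the
class of `result`. -/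
theorem depends_only (X : Set (List Bool → Bool)) : PNull X ↔
    PNull {R | R ∈ X ∧ ¬(InEXP R ∧ ∃ α : ℝ, α < 1 ∧ ¬P2Null {B | RedT α R B})} :=
  Pn.diff_iff (SP.pnull_of_strong result) X

/-- Side theorem: the class of `result` contains `P`. -/
theorem contains_P (R : List Bool → Bool) (hR : IsPolyTime R) :
    InEXP R ∧ ∃ α : ℝ, α < 1 ∧ ¬P2Null {B | RedT α R B} :=
  Pn.span_P hR

/-- Side theorem (Lutz 1992, a control of the definition): the class `E`, polynomial time in the
input padded to length `2 ^ (n + 1)`, has no p-null cover. -/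
theorem not_null : ¬PNull {A | ∃ R : List Bool × List Bool → Bool, IsPolyTime R ∧
    ∀ x, A x = R (x, List.replicate (2 ^ (x.length + 1)) true)} :=
  Pn.not_null

end Pool.Agent.Results.MP_158ebf_lc.SmallSpan
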